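import Pool.Agent.H317.GR.StmA

/-!
# GR-SCH (helper668 for helper317): the characters of degree `n` of `SL_n(ℤ)`
-/

set_option autoImplicit false

namespace Pool.Agent.H668.GR

open Matrix Module Pool.Agent.H317.GR

theorem tr_std (n : ℕ) (K : Type) [Field K] (A : SZ n) :
    (std n K A).val.trace = ((A.val.trace : ℤ) : K) := by
  have h1 : (std n K A).val = (A.val).map (Int.castRingHom K) := rfl
  rw [h1, Matrix.trace, Matrix.trace]
  simp [Matrix.diag]

theorem tr_dstd (n : ℕ) (K : Type) [Field K] (A : SZ n) :
    (dstd n K A).val.trace = (((A⁻¹).val.trace : ℤ) : K) := by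
  have h1 : dstd n K A = std n K (dl n ℤ A) := rfl
  rw [h1, tr_std]
  have h2 : (dl n ℤ A).val = ((A⁻¹).val)ᵀ := rfl
  rw [h2, Matrix.trace_transpose]

theorem tr_conj (n : ℕ) (K : Type) [Field K] (P X : GL (Fin n) K) :
    (P * X * P⁻¹).val.trace = X.val.trace := by
  have h1 : (P * X * P⁻¹).val = P.val * X.val * (P⁻¹).val := rfl
  rw [h1, Matrix.trace_mul_comm, ← Matrix.mul_assoc]
  have h2 : (P⁻¹).val * P.val = 1 := by
    rw [← Units.val_mul, inv_mul_cancel]
    rfl
  rw [h2, Matrix.one_mul]

theorem tr_two (n : ℕ) (i j : Fin n) (h : i ≠ j) (a : ℤ) :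
    (SpecialLinearGroup.transvection h a * SpecialLinearGroup.transvection h.symm 1 : SZ n).val.trace
      = n + a := by
  have h1 : (SpecialLinearGroup.transvection h a * SpecialLinearGroup.transvection h.symm 1 :
      SZ n).val = (1 + Matrix.single i j a) * (1 + Matrix.single j i 1) := rfl
  rw [h1, Matrix.add_mul, Matrix.mul_add, Matrix.mul_add, Matrix.one_mul, Matrix.one_mul,
    Matrix.mul_one, Matrix.single_mul_single_same, Matrix.trace_add, Matrix.trace_add,
    Matrix.trace_add, Matrix.trace_one, Matrix.trace_single_eq_of_ne _ _ _ h.symm,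
    Matrix.trace_single_eq_of_ne _ _ _ h, Matrix.trace_single_eq_same]
  simp

theorem ex_A (n : ℕ) (hn : 3 ≤ n) : ∃ A : SZ n, A.val.trace = n + 1 ∧ (A⁻¹).val.trace = n := by
  set i : Fin n := ⟨0, by omega⟩ with hi
  set j : Fin n := ⟨1, by omega⟩ with hj
  set l : Fin n := ⟨2, by omega⟩ with hl
  have hij : i ≠ j := by intro h; rw [hi, hj, Fin.mk.injEq] at h; omega
  have hjl : j ≠ l := by intro h; rw [hj, hl, Fin.mk.injEq] at h; omega
  have hli : l ≠ i := by intro h; rw [hl, hi, Fin.mk.injEq] at h; omega
  refine ⟨SpecialLinearGroup.transvection hij 1 * SpecialLinearGroup.transvection hjl 1 *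
    SpecialLinearGroup.transvection hli 1, ?_, ?_⟩
  · have h1 : (SpecialLinearGroup.transvection hij 1 * SpecialLinearGroup.transvection hjl 1 *
        SpecialLinearGroup.transvection hli 1 : SZ n).val = (1 + Matrix.single i j 1) *
        (1 + Matrix.single j l 1) * (1 + Matrix.single l i 1) := rfl
    have h2 : (1 + Matrix.single i j (1 : ℤ)) * (1 + Matrix.single j l 1) * (1 + Matrix.single l i 1)
        = 1 + Matrix.single i j 1 + Matrix.single j l 1 + Matrix.single i l 1 + Matrix.single l i 1 +
          Matrix.single j i 1 + Matrix.single i i 1 := by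
      have e1 : Matrix.single i j (1 : ℤ) * Matrix.single j l 1 = Matrix.single i l 1 := by
        rw [Matrix.single_mul_single_same, one_mul]
      have e2 : Matrix.single i j (1 : ℤ) * Matrix.single l i 1 = 0 :=
        Matrix.single_mul_single_of_ne _ _ _ _ hjl _
      have e3 : Matrix.single j l (1 : ℤ) * Matrix.single l i 1 = Matrix.single j i 1 := by
        rw [Matrix.single_mul_single_same, one_mul]
      have e4 : Matrix.single i l (1 : ℤ) * Matrix.single l i 1 = Matrix.single i i 1 := by
        rw [Matrix.single_mul_single_same, one_mul]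
      calc (1 + Matrix.single i j (1 : ℤ)) * (1 + Matrix.single j l 1) * (1 + Matrix.single l i 1)
          = 1 + Matrix.single i j 1 + Matrix.single j l 1 +
            Matrix.single i j (1 : ℤ) * Matrix.single j l 1 + Matrix.single l i 1 +
            Matrix.single i j (1 : ℤ) * Matrix.single l i 1 +
            Matrix.single j l (1 : ℤ) * Matrix.single l i 1 +
            (Matrix.single i j (1 : ℤ) * Matrix.single j l 1) * Matrix.single l i 1 := by
              noncomm_ring
        _ = _ := by rw [e1, e2, e3, e4]; abel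
    rw [h1, h2]
    simp only [Matrix.trace_add, Matrix.trace_one]
    rw [Matrix.trace_single_eq_of_ne _ _ _ hij, Matrix.trace_single_eq_of_ne _ _ _ hjl,
      Matrix.trace_single_eq_of_ne _ _ _ hli.symm, Matrix.trace_single_eq_of_ne _ _ _ hli,
      Matrix.trace_single_eq_of_ne _ _ _ hij.symm, Matrix.trace_single_eq_same]
    simp
  · have h0 : (SpecialLinearGroup.transvection hij (1 : ℤ) * SpecialLinearGroup.transvection hjl 1 *
        SpecialLinearGroup.transvection hli 1 : SZ n)⁻¹ = SpecialLinearGroup.transvection hli (-1) *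
        SpecialLinearGroup.transvection hjl (-1) * SpecialLinearGroup.transvection hij (-1) := by
      rw [_root_.mul_inv_rev, _root_.mul_inv_rev, SpecialLinearGroup.transvection_inv,
        SpecialLinearGroup.transvection_inv, SpecialLinearGroup.transvection_inv, mul_assoc]
    have h1 : (SpecialLinearGroup.transvection hli (-1) *
        SpecialLinearGroup.transvection hjl (-1) * SpecialLinearGroup.transvection hij (-1) :
        SZ n).val = (1 + Matrix.single l i (-1)) *
        (1 + Matrix.single j l (-1)) * (1 + Matrix.single i j (-1)) := rfl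
    have h2 : (1 + Matrix.single l i (-1 : ℤ)) * (1 + Matrix.single j l (-1)) *
        (1 + Matrix.single i j (-1))
        = 1 + Matrix.single l i (-1) + Matrix.single j l (-1) + Matrix.single i j (-1) +
          Matrix.single l j 1 := by
      have e1 : Matrix.single l i (-1 : ℤ) * Matrix.single j l (-1) = 0 :=
        Matrix.single_mul_single_of_ne _ _ _ _ hij _
      have e2 : Matrix.single l i (-1 : ℤ) * Matrix.single i j (-1) = Matrix.single l j 1 := by
        rw [Matrix.single_mul_single_same]
        norm_num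
      have e3 : Matrix.single j l (-1 : ℤ) * Matrix.single i j (-1) = 0 :=
        Matrix.single_mul_single_of_ne _ _ _ _ hli _
      calc (1 + Matrix.single l i (-1 : ℤ)) * (1 + Matrix.single j l (-1)) *
            (1 + Matrix.single i j (-1))
          = 1 + Matrix.single l i (-1) + Matrix.single j l (-1) +
            Matrix.single l i (-1 : ℤ) * Matrix.single j l (-1) + Matrix.single i j (-1) +
            Matrix.single l i (-1 : ℤ) * Matrix.single i j (-1) +
            Matrix.single j l (-1 : ℤ) * Matrix.single i j (-1) +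
            (Matrix.single l i (-1 : ℤ) * Matrix.single j l (-1)) * Matrix.single i j (-1) := by
              noncomm_ring
        _ = _ := by rw [e1, e2, e3, Matrix.zero_mul]; abel
    rw [h0, h1, h2]
    simp only [Matrix.trace_add, Matrix.trace_one]
    rw [Matrix.trace_single_eq_of_ne _ _ _ hli, Matrix.trace_single_eq_of_ne _ _ _ hjl,
      Matrix.trace_single_eq_of_ne _ _ _ hij, Matrix.trace_single_eq_of_ne _ _ _ hjl.symm]
    simp

/-- the values of a character in `finChars` form a finite set -/
theorem fin_range (G : Type) [Group G] (n : ℕ) (K : Type) [Field K] (χ : G → K)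
    (h : χ ∈ finChars G n K) : (Set.range χ).Finite := by
  obtain ⟨ρ, hρ, hχ⟩ := h
  have h1 : Set.range χ ⊆ (fun X : GL (Fin n) K => X.val.trace) '' (ρ.range : Set (GL (Fin n) K)) := by
    rintro _ ⟨g, rfl⟩
    exact ⟨ρ g, ⟨g, rfl⟩, (hχ g).symm⟩
  exact (Set.Finite.image _ (Set.toFinite (ρ.range : Set (GL (Fin n) K)))).subset h1

theorem sch (hS : S_SUPER) : S_SCH := by
  intro n hn K _ _
  set χ₁ : SZ n → K := fun A => (std n K A).val.trace with hχ₁
  set χ₂ : SZ n → K := fun A => (dstd n K A).val.trace with hχ₂
  have hinf : (Set.range χ₁).Infinite := by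
    have hij : (⟨0, by omega⟩ : Fin n) ≠ ⟨1, by omega⟩ := by
      intro h
      rw [Fin.mk.injEq] at h
      omega
    have h1 : Set.range (fun a : ℤ => ((n + a : ℤ) : K)) ⊆ Set.range χ₁ := by
      rintro _ ⟨a, rfl⟩
      refine ⟨SpecialLinearGroup.transvection hij a * SpecialLinearGroup.transvection hij.symm 1, ?_⟩
      show (std n K _).val.trace = _
      rw [tr_std, tr_two]
    refine Set.Infinite.mono h1 (Set.infinite_range_of_injective ?_)
    intro a b hab
    have h2 : ((n + a : ℤ) : K) = ((n + b : ℤ) : K) := hab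
    have h3 : (n + a : ℤ) = n + b := by exact_mod_cast h2
    omega
  have h12 : ∀ A, χ₂ A = χ₁ A⁻¹ := by
    intro A
    show (dstd n K A).val.trace = (std n K A⁻¹).val.trace
    rw [tr_std, tr_dstd]
  have hinf2 : (Set.range χ₂).Infinite := by
    have h1 : Set.range χ₂ = Set.range χ₁ := by
      ext x
      constructor
      · rintro ⟨A, rfl⟩
        exact ⟨A⁻¹, (h12 A).symm⟩
      · rintro ⟨A, rfl⟩
        exact ⟨A⁻¹, by rw [h12, inv_inv]⟩
    rw [h1]
    exact hinf
  have hne : χ₁ ≠ χ₂ := by
    intro h
    obtain ⟨A, hA1, hA2⟩ := ex_A n hn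
    have h1 := congrFun h A
    have h2 : χ₁ A = (((n : ℤ) + 1 : ℤ) : K) := by
      show (std n K A).val.trace = _
      rw [tr_std, hA1]
    have h3 : χ₂ A = ((n : ℤ) : K) := by
      show (dstd n K A).val.trace = _
      rw [tr_dstd, hA2]
    rw [h2, h3] at h1
    have h4 : ((n : ℤ) + 1 : ℤ) = n := by exact_mod_cast h1
    omega
  have heq : chars (SZ n) n K \ finChars (SZ n) n K = {χ₁, χ₂} := by
    ext χ
    constructor
    · rintro ⟨⟨τ, hτ⟩, hnot⟩
      rcases hS n hn K τ with h | ⟨P, hP⟩ | ⟨P, hP⟩
      · exact absurd ⟨τ, h, hτ⟩ hnot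
      · left
        funext A
        rw [hτ, hP, tr_conj]
      · right
        show χ = χ₂
        funext A
        rw [hτ, hP, tr_conj]
    · rintro (rfl | h)
      · exact ⟨⟨std n K, fun A => rfl⟩, fun h => hinf (fin_range _ _ _ _ h)⟩
      · have h' : χ = χ₂ := h
        rw [h']
        exact ⟨⟨dstd n K, fun A => rfl⟩, fun h => hinf2 (fin_range _ _ _ _ h)⟩
  rw [heq]
  exact Set.encard_pair hne

end Pool.Agent.H668.GR
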